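import Pool.Agent.H28.SPLines

/-!
A diamond-free graph on 13 vertices which is not strongly perfect although each of its nonempty
induced subgraphs has an odd transversal: the finite check.
-/

namespace Pool.Agent.H20.SP3

/-- the maximal cliques of the graph -/
def cl : List (List ℕ) :=
  [[0, 3, 7, 10], [4, 7, 12], [0, 1], [1, 2], [2, 3], [0, 8], [8, 9], [9, 10], [0, 11], [11, 12],
    [4, 5], [5, 6], [6, 7]]

/-- two members of `l` are in the set `b` -/
def two (b : ℕ → Bool) (l : List ℕ) : Bool :=
  l.any (fun p => b p && l.any (fun q => b q && (p != q)))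

/-- the parity of the number of members of `l` in the set `g` -/
def par (g : ℕ → Bool) (l : List ℕ) : Bool := l.foldr (fun i acc => xor (g i) acc) false

/-- the condition for a line with two vertices -/
def edge (b c x y : Bool) : Bool := !(b && c) || xor x y

/-- the condition for a line with three vertices -/
def tri (a b c x y z : Bool) : Bool :=
  !((a && (b || c)) || (b && c)) || xor (a && x) (xor (b && y) (c && z))

/-- the condition for a line with four vertices -/
def quad (a b c d x y z t : Bool) : Bool :=
  !((a && (b || (c || d))) || ((b && (c || d)) || (c && d))) ||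
    xor (a && x) (xor (b && y) (xor (c && z) (d && t)))

/-- the condition for all lines -/
def goodE (b0 b1 b2 b3 b4 b5 b6 b7 b8 b9 b10 b11 b12
    x0 x1 x2 x3 x4 x5 x6 x7 x8 x9 x10 x11 x12 : Bool) : Bool :=
  quad b0 b3 b7 b10 x0 x3 x7 x10 && (tri b4 b7 b12 x4 x7 x12 && (
    edge b0 b1 x0 x1 && (edge b1 b2 x1 x2 && (edge b2 b3 x2 x3 && (
    edge b0 b8 x0 x8 && (edge b8 b9 x8 x9 && (edge b9 b10 x9 x10 && (
    edge b0 b11 x0 x11 && (edge b11 b12 x11 x12 && (edge b4 b5 x4 x5 && (
    edge b5 b6 x5 x6 && (edge b6 b7 x6 x7))))))))))))

/-- one of six sets is good -/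
def okE (b0 b1 b2 b3 b4 b5 b6 b7 b8 b9 b10 b11 b12 : Bool) : Bool :=
  goodE b0 b1 b2 b3 b4 b5 b6 b7 b8 b9 b10 b11 b12
    false true false true true false true false true false true true false || (
  goodE b0 b1 b2 b3 b4 b5 b6 b7 b8 b9 b10 b11 b12
    false true false true false true false true true false true true false || (
  goodE b0 b1 b2 b3 b4 b5 b6 b7 b8 b9 b10 b11 b12
    false false true false true false true false true false true true false || (
  goodE b0 b1 b2 b3 b4 b5 b6 b7 b8 b9 b10 b11 b12
    true false true false false false true false false true false false true || (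
  goodE b0 b1 b2 b3 b4 b5 b6 b7 b8 b9 b10 b11 b12
    true false true false false true false true false true false true false || (
  goodE b0 b1 b2 b3 b4 b5 b6 b7 b8 b9 b10 b11 b12
    true false true false false true false false false true false false true)))))

/-- all Booleans satisfy `P` -/
def al (P : Bool → Bool) : Bool := P false && P true

theorem al_spec {P : Bool → Bool} (h : al P = true) (b : Bool) : P b = true := by
  rw [al, Bool.and_eq_true] at h
  cases b
  · exact h.1
  · exact h.2

set_option maxRecDepth 100000 in
theorem allE : al (fun b0 => al (fun b1 => al (fun b2 => al (fun b3 => al (fun b4 =>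
    al (fun b5 => al (fun b6 => al (fun b7 => al (fun b8 => al (fun b9 => al (fun b10 =>
    al (fun b11 => al (fun b12 => okE b0 b1 b2 b3 b4 b5 b6 b7 b8 b9 b10 b11 b12))))))))))))) = true := by
  decide +kernel

theorem okE_all (b0 b1 b2 b3 b4 b5 b6 b7 b8 b9 b10 b11 b12 : Bool) : okE b0 b1 b2 b3 b4 b5 b6 b7 b8 b9 b10 b11 b12 = true :=
  al_spec (al_spec (al_spec (al_spec (al_spec (al_spec (al_spec (al_spec (al_spec (al_spec
    (al_spec (al_spec (al_spec allE b0) b1) b2) b3) b4) b5) b6) b7) b8) b9) b10) b11) b12

theorem edge_ok (b x : ℕ → Bool) (p q : ℕ) (hpq : p ≠ q)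
    (h : edge (b p) (b q) (x p) (x q) = true) (ht : two b [p, q] = true) :
    par (fun i => b i && x i) [p, q] = true := by
  have h1 : (p != q) = true := by simpa using hpq
  have h2 : (q != p) = true := by simpa using hpq.symm
  revert h ht
  simp only [edge, two, par, List.any_cons, List.any_nil, List.foldr_cons, List.foldr_nil, h1, h2,
    bne_self_eq_false]
  generalize b p = a1
  generalize b q = a2
  generalize x p = a3
  generalize x q = a4
  revert a1 a2 a3 a4
  decide

theorem tri_ok (b x : ℕ → Bool)
    (h : tri (b 4) (b 7) (b 12) (x 4) (x 7) (x 12) = true) (ht : two b [4, 7, 12] = true) :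
    par (fun i => b i && x i) [4, 7, 12] = true := by
  revert h ht
  simp only [tri, two, par, List.any_cons, List.any_nil, List.foldr_cons, List.foldr_nil]
  generalize b 4 = a1
  generalize b 7 = a2
  generalize b 12 = a3
  generalize x 4 = a4
  generalize x 7 = a5
  generalize x 12 = a6
  revert a1 a2 a3 a4 a5 a6
  decide +kernel

theorem quad_ok (b x : ℕ → Bool)
    (h : quad (b 0) (b 3) (b 7) (b 10) (x 0) (x 3) (x 7) (x 10) = true)
    (ht : two b [0, 3, 7, 10] = true) :
    par (fun i => b i && x i) [0, 3, 7, 10] = true := by
  revert h ht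
  simp only [quad, two, par, List.any_cons, List.any_nil, List.foldr_cons, List.foldr_nil]
  generalize b 0 = a1
  generalize b 3 = a2
  generalize b 7 = a3
  generalize b 10 = a4
  generalize x 0 = a5
  generalize x 3 = a6
  generalize x 7 = a7
  generalize x 10 = a8
  revert a1 a2 a3 a4 a5 a6 a7 a8
  decide +kernel

theorem par_of_goodE (b x : ℕ → Bool)
    (h : goodE (b 0) (b 1) (b 2) (b 3) (b 4) (b 5) (b 6) (b 7) (b 8) (b 9) (b 10) (b 11) (b 12)
      (x 0) (x 1) (x 2) (x 3) (x 4) (x 5) (x 6) (x 7) (x 8) (x 9) (x 10) (x 11) (x 12) = true)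
    (m : List ℕ) (hm : m ∈ cl) (ht : two b m = true) :
    par (fun i => b i && x i) m = true := by
  simp only [goodE, Bool.and_eq_true] at h
  obtain ⟨hq, htr, h1, h2, h3, h4, h5, h6, h7, h8, h9, h10, h11⟩ := h
  simp only [cl, List.mem_cons, List.not_mem_nil, or_false] at hm
  rcases hm with rfl | rfl | rfl | rfl | rfl | rfl | rfl | rfl | rfl | rfl | rfl | rfl | rfl
  · exact quad_ok b x hq ht
  · exact tri_ok b x htr ht
  · exact edge_ok b x 0 1 (by decide) h1 ht
  · exact edge_ok b x 1 2 (by decide) h2 ht
  · exact edge_ok b x 2 3 (by decide) h3 ht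
  · exact edge_ok b x 0 8 (by decide) h4 ht
  · exact edge_ok b x 8 9 (by decide) h5 ht
  · exact edge_ok b x 9 10 (by decide) h6 ht
  · exact edge_ok b x 0 11 (by decide) h7 ht
  · exact edge_ok b x 11 12 (by decide) h8 ht
  · exact edge_ok b x 4 5 (by decide) h9 ht
  · exact edge_ok b x 5 6 (by decide) h10 ht
  · exact edge_ok b x 6 7 (by decide) h11 ht

/-- a list of Booleans as a set -/
def bf (l : List Bool) (i : ℕ) : Bool := l.getD i false

theorem exists_set (b : ℕ → Bool) :
    ∃ x : ℕ → Bool, ∀ m ∈ cl, two b m = true → par (fun i => b i && x i) m = true := by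
  have h := okE_all (b 0) (b 1) (b 2) (b 3) (b 4) (b 5) (b 6) (b 7) (b 8) (b 9) (b 10) (b 11) (b 12)
  rw [okE] at h
  simp only [Bool.or_eq_true] at h
  rcases h with h | h | h | h | h | h
  · exact ⟨bf [false, true, false, true, true, false, true, false, true, false, true, true, false],
      fun m hm ht => par_of_goodE b _ h m hm ht⟩
  · exact ⟨bf [false, true, false, true, false, true, false, true, true, false, true, true, false],
      fun m hm ht => par_of_goodE b _ h m hm ht⟩
  · exact ⟨bf [false, false, true, false, true, false, true, false, true, false, true, true, false],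
      fun m hm ht => par_of_goodE b _ h m hm ht⟩
  · exact ⟨bf [true, false, true, false, false, false, true, false, false, true, false, false, true],
      fun m hm ht => par_of_goodE b _ h m hm ht⟩
  · exact ⟨bf [true, false, true, false, false, true, false, true, false, true, false, true, false],
      fun m hm ht => par_of_goodE b _ h m hm ht⟩
  · exact ⟨bf [true, false, true, false, false, true, false, false, false, true, false, false, true],
      fun m hm ht => par_of_goodE b _ h m hm ht⟩

end Pool.Agent.H20.SP3
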