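import Pool.Agent.H20.SP.Ex3

/-!
A diamond-free graph on 13 vertices which is not strongly perfect although each of its nonempty
induced subgraphs has an odd transversal: the graph, and the meaning of the finite check.
-/

namespace Pool.Agent.H20.SP3

open Finset Pool.Agent.H28.SP

/-- the adjacency of the graph -/
def GA (i j : Fin 13) : Bool :=
  decide (i ≠ j) && cl.any (fun l => l.contains i.1 && l.contains j.1)

/-- the graph -/
def G13 : SimpleGraph (Fin 13) where
  Adj i j := GA i j = true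
  symm := by
    have h : ∀ i j : Fin 13, GA i j = true → GA j i = true := by decide +kernel
    exact ⟨fun i j hij => h i j hij⟩
  loopless := by
    have h : ∀ i : Fin 13, ¬ GA i i = true := by decide +kernel
    exact ⟨h⟩

instance : DecidableRel G13.Adj := fun i j => inferInstanceAs (Decidable (GA i j = true))

theorem df13 : DiamondFree G13 := by
  have h : ∀ b c : Fin 13, G13.Adj b c → ∀ a, G13.Adj a b → G13.Adj a c →
      ∀ d, G13.Adj b d → G13.Adj c d → a ≠ d → G13.Adj a d := by decide +kernel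
  rintro ⟨a, b, c, d, hab, hac, hbc, hbd, hcd, hne, hn⟩
  exact hn (h b c hbc a hab hac d hbd hcd hne)

theorem line13 : ∀ b c : Fin 13, G13.Adj b c → ∃ l ∈ cl, b.1 ∈ l ∧ c.1 ∈ l ∧
    ∀ x : Fin 13, ((x = b ∨ G13.Adj x b) ∧ (x = c ∨ G13.Adj x c)) ↔ x.1 ∈ l := by
  decide +kernel

theorem cl_nodup : ∀ l ∈ cl, l.Nodup ∧ ∀ i ∈ l, i < 13 := by decide +kernel

theorem not_sp : ¬ StronglyPerfect G13 := by
  intro h
  obtain ⟨S, hSU, hst, hS⟩ := h Finset.univ Finset.univ_nonempty
  have stab : ∀ x y : Fin 13, x ∈ S → y ∈ S → G13.Adj x y → False := by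
    intro x y hx hy hxy
    exact hst (by exact_mod_cast hx) (by exact_mod_cast hy) hxy.ne hxy
  have key : ∀ b c : Fin 13, G13.Adj b c → ∃ x ∈ S, (x = b ∨ G13.Adj x b) ∧
      (x = c ∨ G13.Adj x c) := by
    intro b c hbc
    have hC : MaxCliqueIn G13 Finset.univ
        (Finset.univ.filter (fun x => (x = b ∨ G13.Adj x b) ∧ (x = c ∨ G13.Adj x c))) := by
      rw [← mem_lines_iff G13 df13 Finset.univ_nonempty]
      unfold lines
      refine Finset.mem_union_right _ (Finset.mem_image.mpr ⟨(b, c), ?_, rfl⟩)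
      simp [hbc]
    obtain ⟨x, hx⟩ := hS _ hC
    rw [Finset.mem_inter, Finset.mem_filter] at hx
    exact ⟨x, hx.1, hx.2.2⟩
  have pe : ∀ b c : Fin 13, G13.Adj b c →
      (∀ x : Fin 13, (x = b ∨ G13.Adj x b) ∧ (x = c ∨ G13.Adj x c) → x = b ∨ x = c) →
      (b ∈ S ↔ c ∉ S) := by
    intro b c hbc hp
    constructor
    · intro hb hc
      exact stab b c hb hc hbc
    · intro hc
      obtain ⟨x, hx, hx'⟩ := key b c hbc
      rcases hp x hx' with rfl | rfl
      · exact hx
      · exact absurd hx hc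
  have h01 := pe 0 1 (by decide +kernel) (by decide +kernel)
  have h12 := pe 1 2 (by decide +kernel) (by decide +kernel)
  have h23 := pe 2 3 (by decide +kernel) (by decide +kernel)
  have h08 := pe 0 8 (by decide +kernel) (by decide +kernel)
  have h89 := pe 8 9 (by decide +kernel) (by decide +kernel)
  have h910 := pe 9 10 (by decide +kernel) (by decide +kernel)
  have h011 := pe 0 11 (by decide +kernel) (by decide +kernel)
  have h1112 := pe 11 12 (by decide +kernel) (by decide +kernel)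
  have h45 := pe 4 5 (by decide +kernel) (by decide +kernel)
  have h56 := pe 5 6 (by decide +kernel) (by decide +kernel)
  have h67 := pe 6 7 (by decide +kernel) (by decide +kernel)
  have a310 : ¬ ((3 : Fin 13) ∈ S ∧ (10 : Fin 13) ∈ S) :=
    fun h => stab 3 10 h.1 h.2 (by decide +kernel)
  have a07 : ¬ ((0 : Fin 13) ∈ S ∧ (7 : Fin 13) ∈ S) :=
    fun h => stab 0 7 h.1 h.2 (by decide +kernel)
  have a412 : ¬ ((4 : Fin 13) ∈ S ∧ (12 : Fin 13) ∈ S) :=
    fun h => stab 4 12 h.1 h.2 (by decide +kernel)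
  by_cases h0 : (0 : Fin 13) ∈ S
  · have h7 : (7 : Fin 13) ∉ S := fun h => a07 ⟨h0, h⟩
    have h6 : (6 : Fin 13) ∈ S := h67.mpr h7
    have h5 : (5 : Fin 13) ∉ S := fun h => (h56.mp h) h6
    have h4 : (4 : Fin 13) ∈ S := h45.mpr h5
    have h11 : (11 : Fin 13) ∉ S := h011.mp h0
    have h12' : (12 : Fin 13) ∈ S := by
      by_contra hn
      exact h11 (h1112.mpr hn)
    exact a412 ⟨h4, h12'⟩
  · have h1 : (1 : Fin 13) ∈ S := by
      by_contra hn
      exact h0 (h01.mpr hn)
    have h2 : (2 : Fin 13) ∉ S := h12.mp h1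
    have h3 : (3 : Fin 13) ∈ S := by
      by_contra hn
      exact h2 (h23.mpr hn)
    have h8 : (8 : Fin 13) ∈ S := by
      by_contra hn
      exact h0 (h08.mpr hn)
    have h9 : (9 : Fin 13) ∉ S := h89.mp h8
    have h10 : (10 : Fin 13) ∈ S := by
      by_contra hn
      exact h9 (h910.mpr hn)
    exact a310 ⟨h3, h10⟩

theorem one_exception : ∀ v a b c d : Fin 13, v ≠ 7 → G13.Adj v a → G13.Adj v b → G13.Adj a b →
    G13.Adj v c → G13.Adj v d → G13.Adj c d → a = c ∨ G13.Adj a c := by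
  have h : ∀ v : Fin 13, v ≠ 7 → ∀ a, G13.Adj v a → ∀ b, G13.Adj v b → G13.Adj a b →
      ∀ c, G13.Adj v c → ∀ d, G13.Adj v d → G13.Adj c d → a = c ∨ G13.Adj a c := by
    decide +kernel
  intro v a b c d hv hva hvb hab hvc hvd hcd
  exact h v hv a hva b hvb hab c hvc d hvd hcd

theorem par_iff (g : ℕ → Bool) : ∀ l : List ℕ, par g l = true ↔ Odd (l.filter g).length := by
  intro l
  induction l with
  | nil => simp [par]
  | cons i l ih =>
    have hp : par g (i :: l) = xor (g i) (par g l) := rfl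
    rw [hp, List.filter_cons]
    cases hg : g i
    · simpa using ih
    · simp only [if_true, List.length_cons, Bool.true_xor, Bool.not_eq_true']
      rw [Nat.odd_add_one, ← ih]
      simp

theorem card_line (g : ℕ → Bool) (l : List ℕ) (hl : l.Nodup) (hb : ∀ i ∈ l, i < 13) :
    (Finset.univ.filter (fun x : Fin 13 => x.1 ∈ l ∧ g x.1 = true)).card
      = (l.filter g).length := by
  rw [← List.toFinset_card_of_nodup (hl.filter g)]
  rw [← Finset.card_image_of_injective _ Fin.val_injective]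
  congr 1
  ext i
  simp only [Finset.mem_image, Finset.mem_filter, Finset.mem_univ, true_and, List.mem_toFinset,
    List.mem_filter]
  constructor
  · rintro ⟨x, ⟨hx, hg⟩, rfl⟩
    exact ⟨hx, hg⟩
  · rintro ⟨hi, hg⟩
    exact ⟨⟨i, hb i hi⟩, ⟨hi, hg⟩, rfl⟩

theorem odd_all (W : Finset (Fin 13)) (hW : W.Nonempty) :
    ∃ X ⊆ W, ∀ C, MaxCliqueIn G13 W C → Odd (C ∩ X).card := by
  obtain ⟨l, hl⟩ : ∃ l : List Bool, l = List.ofFn (fun i : Fin 13 => decide (i ∈ W)) := ⟨_, rfl⟩
  have hbf : ∀ i : Fin 13, bf l i.1 = decide (i ∈ W) := by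
    intro i
    rw [bf, hl, List.getD_eq_getElem?_getD, List.getElem?_ofFn]
    simp
  obtain ⟨x, hx⟩ := exists_set (bf l)
  refine ⟨W.filter (fun i => x i.1 = true ∨ ∀ j ∈ W, ¬ G13.Adj i j),
    Finset.filter_subset _ _, ?_⟩
  intro C hC
  rw [← mem_lines_iff G13 df13 hW] at hC
  unfold lines at hC
  simp only [Finset.mem_union, Finset.mem_image, Finset.mem_filter, Finset.mem_product,
    Prod.exists] at hC
  rcases hC with ⟨v, hv, rfl⟩ | ⟨b, c, ⟨⟨hb, hc⟩, hadj⟩, rfl⟩
  · have : ({v} : Finset (Fin 13)) ∩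
        W.filter (fun i => x i.1 = true ∨ ∀ j ∈ W, ¬ G13.Adj i j) = {v} := by
      rw [Finset.inter_eq_left, Finset.singleton_subset_iff]
      simp only [Finset.mem_filter]
      exact ⟨hv.1, Or.inr hv.2⟩
    rw [this]
    simp
  · obtain ⟨m, hm, hbm, hcm, hxm⟩ := line13 b c hadj
    have htwo : two (bf l) m = true := by
      simp only [two, List.any_eq_true, Bool.and_eq_true, bne_iff_ne, ne_eq]
      refine ⟨b.1, hbm, ?_, c.1, hcm, ?_, ?_⟩
      · rw [hbf]; simpa using hb
      · rw [hbf]; simpa using hc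
      · intro h
        exact hadj.ne (Fin.ext h)
    have hpar := hx m hm htwo
    rw [par_iff,
      ← card_line _ m (cl_nodup m hm).1 (cl_nodup m hm).2] at hpar
    have hset : W.filter (fun y => (y = b ∨ G13.Adj y b) ∧ (y = c ∨ G13.Adj y c)) ∩
        W.filter (fun i => x i.1 = true ∨ ∀ j ∈ W, ¬ G13.Adj i j)
        = Finset.univ.filter (fun y : Fin 13 => y.1 ∈ m ∧ (bf l y.1 && x y.1) = true) := by
      ext y
      simp only [Finset.mem_inter, Finset.mem_filter, Finset.mem_univ, true_and,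
        Bool.and_eq_true, hbf, decide_eq_true_eq]
      rw [← hxm y]
      constructor
      · rintro ⟨⟨hyW, hy⟩, -, hy'⟩
        refine ⟨hy, hyW, ?_⟩
        rcases hy' with h | h
        · exact h
        · exfalso
          rcases hy.1 with rfl | h1
          · exact h c hc hadj
          · exact h b hb h1
      · rintro ⟨hy, hyW, h⟩
        exact ⟨⟨hyW, hy⟩, hyW, Or.inl h⟩
    show Odd (W.filter (fun y => (y = b ∨ G13.Adj y b) ∧ (y = c ∨ G13.Adj y c)) ∩
        W.filter (fun i => x i.1 = true ∨ ∀ j ∈ W, ¬ G13.Adj i j)).card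
    rw [hset]
    exact hpar

end Pool.Agent.H20.SP3
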